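import Pool.Agent.TRIP.Defs

/-!
# The divisor class group: the definitions of the final statement

An idele of `F` over `K` is a family `D` of elements of `F^×`, indexed by the places `V` of `F` over
`K`, with `D V ∈ V^×` for all but finitely many `V`. The divisor of `D` is the family of the classes
of `D V` in the value groups `F^× / V^× ≅ ℤ`, so the group of divisors is the group of ideles modulo
`∏ V^×` and the divisor class group is the group of ideles modulo `F^× ∏ V^×`.
-/

namespace Pool.Agent.TRIP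

/-- Families `D` of elements of `F^×`, indexed by the places `V` of `F` over `K`, with
`D V ∈ V^×` for all but finitely many `V`. -/
def IsIdele {K F : Type} [Field K] [Field F] [Algebra K F] (D : Place K F → Fˣ) : Prop :=
  {V : Place K F | D V ∉ V.1.unitGroup}.Finite

/-- The divisor class group of `F` over `K`, i.e. the group of ideles modulo `F^× ∏ V^×`, is
isomorphic to `ℤ ^ n`: there is an additive map from the ideles onto `ℤ ^ n` whose kernel is
`F^× ∏ V^×`. -/
def PicIso (K F : Type) [Field K] [Field F] [Algebra K F] (n : ℕ) : Prop :=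
  ∃ Φ : (Place K F → Fˣ) → Fin n → ℤ,
    (∀ D E : Place K F → Fˣ, IsIdele D → IsIdele E → Φ (fun V => D V * E V) = Φ D + Φ E) ∧
    (∀ z : Fin n → ℤ, ∃ D : Place K F → Fˣ, IsIdele D ∧ Φ D = z) ∧
    ∀ D : Place K F → Fˣ, IsIdele D →
      (Φ D = 0 ↔ ∃ f : Fˣ, ∀ V : Place K F, D V / f ∈ V.1.unitGroup)

/-- `A` is a domain, and for every fraction field `F` of `A` the divisor class group of `F` over
`K` is isomorphic to `ℤ ^ n`. -/
def PicRank (K A : Type) [Field K] [CommRing A] [Algebra K A] (n : ℕ) : Prop :=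
  IsDomain A ∧ ∀ (F : Type) [Field F] [Algebra K F] [Algebra A F] [IsScalarTower K A F]
    [IsFractionRing A F], PicIso K F n

theorem picIso_of (K F : Type) [Field K] [Field F] [Algebra K F] {n : ℕ}
    (h : Nonempty (Additive (PicF K F) ≃+ (Fin n → ℤ))) : PicIso K F n := by
  classical
  obtain ⟨e⟩ := h
  let ρ : ∀ D : Place K F → Fˣ, IsIdele D → finSub (fun V : Place K F => VGrp V.1) :=
    fun D hD => ⟨fun V => VGrp.mk V.1 (D V), by
        refine Set.Finite.subset hD fun V hV => ?_
        intro h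
        exact hV ((VGrp.mk_eq_one V.1).2 h)⟩
  have hρ : ∀ E : finSub (fun V : Place K F => VGrp V.1), ∃ (D : Place K F → Fˣ) (hD : IsIdele D),
      ρ D hD = E := by
    intro D
    choose E hE using fun V : Place K F => VGrp.mk_surjective V.1 (D.1 V)
    refine ⟨E, ?_, ?_⟩
    · refine Set.Finite.subset D.2 fun V hV h => hV ?_
      rw [← VGrp.mk_eq_one, hE]
      exact h
    · ext V
      exact hE V
  let e' : PicF K F ≃* Multiplicative (Fin n → ℤ) := AddEquiv.toMultiplicativeRight e
  let Ψ : finSub (fun V : Place K F => VGrp V.1) →* Multiplicative (Fin n → ℤ) :=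
    (e' : PicF K F →* Multiplicative (Fin n → ℤ)).comp (QuotientGroup.mk' _)
  have hΨ : Function.Surjective Ψ := e'.surjective.comp (QuotientGroup.mk'_surjective _)
  have hker : ∀ D : finSub (fun V : Place K F => VGrp V.1), Ψ D = 1 ↔
      ∃ f : Fˣ, prin (fun V : Place K F => V.1) f = D.1 := by
    intro D
    have h1 : Ψ D = 1 ↔
        (QuotientGroup.mk' ((prin (fun V : Place K F => V.1)).range.subgroupOf
          (finSub fun V : Place K F => VGrp V.1)) D) = 1 :=
      map_eq_one_iff e' e'.injective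
    refine h1.trans ?_
    rw [QuotientGroup.mk'_apply, QuotientGroup.eq_one_iff, Subgroup.mem_subgroupOf,
      MonoidHom.mem_range]
  obtain ⟨Φ, hΦ⟩ : ∃ Φ : (Place K F → Fˣ) → Fin n → ℤ, ∀ (D : Place K F → Fˣ) (hD : IsIdele D),
      Φ D = Multiplicative.toAdd (Ψ (ρ D hD)) :=
    ⟨fun D => if hD : IsIdele D then Multiplicative.toAdd (Ψ (ρ D hD)) else 0,
      fun D hD => dif_pos hD⟩
  refine ⟨Φ, ?_, ?_, ?_⟩
  · intro D E hD hE
    have hDE : IsIdele fun V => D V * E V := by
      refine (hD.union hE).subset fun V hV => ?_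
      by_contra h
      rw [Set.mem_union, not_or] at h
      exact hV (mul_mem (not_not.1 h.1) (not_not.1 h.2))
    rw [hΦ _ hD, hΦ _ hE, hΦ _ hDE, ← toAdd_mul, ← map_mul]
    congr 2
  · intro z
    obtain ⟨E, hE⟩ := hΨ (Multiplicative.ofAdd z)
    obtain ⟨D, hD, hDE⟩ := hρ E
    refine ⟨D, hD, ?_⟩
    rw [hΦ _ hD, hDE, hE]
    rfl
  · intro D hD
    rw [hΦ _ hD]
    have h2 : Multiplicative.toAdd (Ψ (ρ D hD)) = 0 ↔ Ψ (ρ D hD) = 1 := Iff.rfl
    rw [h2, hker]
    refine exists_congr fun f => ?_
    rw [funext_iff]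
    refine forall_congr' fun V => ?_
    rw [← VGrp.mk_eq_one, map_div, div_eq_one]
    exact eq_comm

end Pool.Agent.TRIP
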