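import Mathlib

/-!
# The divisor class group of a function field of one variable

`F` is a field extension of `K`. A place is a valuation ring `V ≠ F` of `F` containing `K`; for
a function field of one variable the value group `F^× / V^×` is infinite cyclic. A divisor is a
finitely supported family of elements of the value groups; `Fˣ` maps to the group of principal
divisors.
-/

namespace Pool.Agent.TRIP

section

variable (K F : Type*) [Field K] [Field F] [Algebra K F]

/-- The places of `F` over `K`: the valuation rings `V ≠ F` of `F` which contain `K`. -/
def Place : Type _ := {V : ValuationSubring F // V ≠ ⊤ ∧ ∀ c : K, algebraMap K F c ∈ V}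

end

/-- The value group `F^× / V^×` of a valuation ring. -/
def VGrp {F : Type*} [Field F] (V : ValuationSubring F) : Type _ := Fˣ ⧸ V.unitGroup

noncomputable instance {F : Type*} [Field F] (V : ValuationSubring F) : CommGroup (VGrp V) :=
  inferInstanceAs (CommGroup (Fˣ ⧸ V.unitGroup))

/-- The class of `f ∈ F^×` in the value group. -/
noncomputable def VGrp.mk {F : Type*} [Field F] (V : ValuationSubring F) : Fˣ →* VGrp V :=
  QuotientGroup.mk' V.unitGroup

lemma VGrp.mk_surjective {F : Type*} [Field F] (V : ValuationSubring F) :
    Function.Surjective (VGrp.mk V) := QuotientGroup.mk'_surjective _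

lemma VGrp.mk_eq_one {F : Type*} [Field F] (V : ValuationSubring F) {f : Fˣ} :
    VGrp.mk V f = 1 ↔ f ∈ V.unitGroup := QuotientGroup.eq_one_iff f

/-- Finitely supported families of elements of groups `G i`. -/
def finSub {ι : Type*} (G : ι → Type*) [∀ i, CommGroup (G i)] : Subgroup (∀ i, G i) where
  carrier := {D | {i | D i ≠ 1}.Finite}
  mul_mem' {D E} hD hE := (hD.union hE).subset fun i hi => by
    by_contra h
    simp only [Set.mem_union, Set.mem_setOf_eq, not_or, not_not] at h
    exact hi (by rw [Pi.mul_apply, h.1, h.2, mul_one])
  one_mem' := by simp
  inv_mem' {D} hD := by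
    have : {i | D⁻¹ i ≠ 1} = {i | D i ≠ 1} := by
      ext i
      simp
    simpa [this] using hD

/-- The classes of `f ∈ F^×` in the value groups of the valuation rings `V i`. -/
noncomputable def prin {F ι : Type*} [Field F] (V : ι → ValuationSubring F) :
    Fˣ →* ∀ i, VGrp (V i) := Pi.monoidHom fun i => VGrp.mk (V i)

/-- Divisors modulo principal divisors, for a family of valuation rings. -/
abbrev ClsV {F ι : Type*} [Field F] (V : ι → ValuationSubring F) : Type _ :=
  finSub (fun i => VGrp (V i)) ⧸ (prin V).range.subgroupOf (finSub fun i => VGrp (V i))

/-- The divisor class group of `F` over `K`: finitely supported families of elements of the value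
groups `F^× / V^×`, `V` running through all places, modulo the families given by elements of
`F^×`. -/
abbrev PicF (K F : Type*) [Field K] [Field F] [Algebra K F] : Type _ :=
  ClsV fun V : Place K F => V.1

end Pool.Agent.TRIP
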